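import Pool.Agent.W201.Win

/-!
# Every window contains pairs: the asymptotic form
-/

open Complex Filter Topology Set MeasureTheory
open scoped BigOperators ComplexConjugate

namespace Pool.Agent.W201

open H370

theorem tier_main {F : ℂ → ℂ} (hF : GoodL F) {L ν δ c : ℝ} (hT : Tier L ν δ c) :
    ∃ d : ℝ, 0 < d ∧ d < 1 ∧ ∃ κ : ℝ, 0 < κ ∧ ∃ T0 : ℝ, 10 ≤ T0 ∧ ∀ T : ℝ, T0 ≤ T → ∀ H : ℝ,
      T ^ (1 - d) ≤ H → H ≤ T → ∃ S : Finset ℝ,
        (∀ x ∈ S, T < x ∧ x ≤ T + H ∧ (1 / 2 + I * x : ℂ) ∈ zset F T (T + H) ∧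
          mult F (1 / 2 + I * x) = 1) ∧
        ∀ a b : ℝ, 0 ≤ a → b ≤ κ * H → L * (2 * Real.pi / Real.log T) ≤ b - a →
          (b - a) / (2 * (L * (2 * Real.pi / Real.log T))) * (c * (H / (2 * Real.pi) * Real.log T))
            ≤ PC S a b := by
  classical
  have hpi := Real.pi_pos
  have hpi4 := Real.pi_lt_d2
  set sl : ℝ := 2 - 1.327503 - ν - δ - c with hsl
  have hsl0 : 0 < sl := by have := hT.cc; rw [hsl]; linarith
  -- choice of the exponent
  obtain ⟨ρ, hρ0, hρ⟩ : ∃ ρ : ℝ, 0 < ρ ∧ ∀ θ : ℝ, |θ - 1| < ρ → H295Iso.c0 θ ≤ cMTinv + sl / 4 := by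
    have hcont := H295Iso.c0_cont (h := 1) one_pos
    have h1 : ∀ᶠ x in 𝓝 (1 : ℝ), H295Iso.c0 x < H295Iso.c0 1 + sl / 4 :=
      hcont.eventually (gt_mem_nhds (by linarith))
    rw [Metric.eventually_nhds_iff] at h1
    obtain ⟨ρ, hρ0, hρ⟩ := h1
    refine ⟨ρ, hρ0, fun θ hθ => ?_⟩
    have := hρ (y := θ) (by rw [Real.dist_eq]; exact hθ)
    rw [Pool.Agent.H24R3.PairsShort.c0_one] at this
    exact this.le
  set d : ℝ := min (ρ / 3) (1 / 10000) with hd
  have hd0 : 0 < d := by rw [hd]; positivity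
  have hd1 : d ≤ 1 / 10000 := min_le_right _ _
  have hd2 : d ≤ ρ / 3 := min_le_left _ _
  set θ : ℝ := 1 - d - d with hθ
  have hθ0 : 0 < θ := by rw [hθ]; linarith
  have hθ1 : θ ≤ 1 := by rw [hθ]; linarith
  have hθ2 : 1.399 ≤ 1.3995 * θ := by rw [hθ]; norm_num; linarith
  have hcθ : H295Iso.c0 θ ≤ cMTinv + sl / 4 := by
    apply hρ
    rw [hθ, show 1 - d - d - 1 = -(2 * d) by ring, abs_neg, abs_of_pos (by linarith)]
    linarith
  have hcn := Expl.cMTinv_num
  -- `η` and `κ`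
  set η : ℝ := sl / 56 with hη
  have hη0 : 0 < η := by rw [hη]; positivity
  set κ : ℝ := sl / (8 * (ν + 1)) with hκ
  have hν0 := hT.ν0
  have hδ0 := hT.δ0
  have hκ0 : 0 < κ := by rw [hκ]; positivity
  have hνκ : ν * κ ≤ sl / 8 := by
    rw [hκ, mul_div_assoc', div_le_div_iff₀ (by positivity) (by norm_num)]
    nlinarith
  obtain ⟨T1, hT1, hPC⟩ := H295Iso.pairShort hF (1 - d) d η hd0 (by linarith) (by linarith) hη0
  -- large `T`
  set K : ℝ := (1 + 3 * ν * L / 2) * 8 / sl with hK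
  have htop : Tendsto (fun T : ℝ => T ^ (1 - d)) atTop atTop := tendsto_rpow_atTop (by linarith)
  obtain ⟨T2, hT2⟩ := (htop.eventually_ge_atTop (max K 3)).exists_forall_of_atTop
  obtain ⟨T3, hT3⟩ := (Real.tendsto_log_atTop.eventually_ge_atTop (200 * Real.pi)).exists_forall_of_atTop
  refine ⟨d, hd0, by linarith, κ, hκ0, max (max T1 T2) (max T3 10),
    (le_max_right _ _).trans (le_max_right _ _), fun T hTT H hH hHT => ?_⟩
  have hTT1 : T1 ≤ T := ((le_max_left _ _).trans (le_max_left _ _)).trans hTT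
  have hTT2 := hT2 T (((le_max_right _ _).trans (le_max_left _ _)).trans hTT)
  have hTT3 := hT3 T (((le_max_left _ _).trans (le_max_right _ _)).trans hTT)
  have hT10 : 10 ≤ T := ((le_max_right _ _).trans (le_max_right _ _)).trans hTT
  have hHK : K ≤ H := ((le_max_left _ _).trans hTT2).trans hH
  have hH3 : 3 ≤ H := ((le_max_right _ _).trans hTT2).trans hH
  have hlog : 0 < Real.log T := by
    have : 0 < 200 * Real.pi := by positivity
    linarith
  obtain ⟨U1, U2, hU1, hU1', hU2, hU2', hNN, hQQ⟩ := hPC T hTT1 H hH hHT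
  set σ : ℝ := 2 * Real.pi / Real.log T with hσ
  have hσ0 : 0 < σ := by positivity
  have hσ1 : σ ≤ 1 / 100 := by
    rw [hσ, div_le_div_iff₀ hlog (by norm_num)]
    linarith
  set M : ℝ := H / (2 * Real.pi) * Real.log T with hM
  have hM0 : 0 < M := by positivity
  have hMσ : M = H / σ := by rw [hM, hσ]; field_simp
  have hMH : H ≤ M := by
    rw [hMσ, le_div_iff₀ hσ0]
    nlinarith
  have hM1 : H * Real.log T / (2 * Real.pi) = M := by rw [hM]; ring
  have hM2 : H * Real.log T = 2 * Real.pi * M := by rw [hM]; field_simp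
  rw [hM1] at hNN hQQ
  rw [hM2] at hNN
  have hU : 1 ≤ U1 := by linarith
  have hU12 : U1 ≤ U2 := by linarith
  set Λ : ℝ := (1 - d - d) * Real.log T with hΛ
  have hΛσ : Λ * σ = 2 * Real.pi * θ := by
    rw [hΛ, hσ, hθ]; field_simp
  have hLpos := hT.L0
  set r : ℝ := L * σ / 2 with hr
  have hr0 : 0 < r := by positivity
  refine ⟨SF F U1 U2, ?_, ?_⟩
  · intro x hx
    have h1 := SF_mem hF hU hx
    have h2 := H344.mem_SF.mp hx
    have h3 := (mem_Zf hF hU).mp h2.1
    have him : (1 / 2 + I * (x : ℂ)).im = x := by simp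
    refine ⟨by linarith [h1.1], by linarith [h1.2], ⟨h3.1, h3.2.1, ?_, ?_, h3.2.2.2.2⟩, h2.2⟩
    · rw [him]; linarith [h1.1]
    · rw [him]; linarith [h1.2]
  · intro a b ha hb hab
    have hwin : ∀ a : ℝ, 0 ≤ a → a ≤ κ * H → c * M ≤ PC (SF F U1 U2) a (a + 2 * r) := by
      intro a ha haκ
      have h1 := one_window hF hU hU12 (Λ := Λ) (r := r) (ν := ν / σ) (δ := δ / σ) (a := a) hr0
        (by positivity) (by positivity) ha (hT.hk hσ0 hσ1 hθ0 hθ1 hθ2 hΛσ)
      refine le_trans ?_ h1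
      have h2 := (abs_le.mp hNN).1
      have h3 : U2 - U1 ≤ H := by linarith
      have h4 : ν / σ * (U2 - U1 + a + 3 * r) ≤ ν * M + sl / 8 * M + 3 * ν * L / 2 := by
        have h5 : ν / σ * (U2 - U1 + a + 3 * r) ≤ ν / σ * (H + κ * H + 3 * r) :=
          mul_le_mul_of_nonneg_left (by linarith) (by positivity)
        have h6 : ν / σ * (H + κ * H + 3 * r) = ν * M + (ν * κ) * M + 3 * ν * L / 2 := by
          rw [hMσ, hr]; field_simp
        have h7 : (ν * κ) * M ≤ sl / 8 * M := mul_le_mul_of_nonneg_right hνκ hM0.le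
        linarith
      have h8 : δ / σ * (U2 - U1) ≤ δ * M := by
        have : δ / σ * (U2 - U1) ≤ δ / σ * H := mul_le_mul_of_nonneg_left h3 (by positivity)
        have e : δ / σ * H = δ * M := by rw [hMσ]; ring
        linarith
      have h9 : M * (H295Iso.c0 (1 - d - d) + η) ≤ M * (1.327503 + sl / 4 + η) :=
        mul_le_mul_of_nonneg_left (by linarith) hM0.le
      have h10 : 1 + 3 * ν * L / 2 ≤ sl / 8 * M := by
        have : K ≤ M := hHK.trans hMH
        rw [hK, div_le_iff₀ hsl0] at this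
        linarith
      have h11 : η * (2 * Real.pi * M) ≤ sl / 8 * M := by
        have : η * (2 * Real.pi * M) = (η * (2 * Real.pi)) * M := by ring
        rw [this]
        apply mul_le_mul_of_nonneg_right _ hM0.le
        rw [hη]
        norm_num at hpi4
        nlinarith
      have h12 : M * η ≤ sl / 56 * M := by rw [hη]; linarith
      have h13 : c * M = (2 - 1.327503 - ν - δ - sl) * M := by rw [hsl]; ring
      rw [h13]
      have h14 : M * (1.327503 + sl / 4 + η) = 1.327503 * M + sl / 4 * M + M * η := by ring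
      have h15 : 0 < sl * M := by positivity
      have h16 : (2 - 1.327503 - ν - δ - sl) * M = 2 * M - 1.327503 * M - ν * M - δ * M - sl * M := by
        ring
      rw [h16]
      norm_num at h14 h9 ⊢
      linarith
    have h2r : 2 * r = L * σ := by rw [hr]; ring
    have := linear_windows hr0 (mul_nonneg hT.c0 hM0.le) hwin a b ha hb (by rw [h2r]; exact hab)
    rw [h2r] at this
    exact this

end Pool.Agent.W201
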