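import Pool.Agent.H370R2.Fin4

/-!
# Chains of consecutive points: tridiagonal test matrices and a measure of the gaps
-/

open Complex Filter Topology Set MeasureTheory
open scoped BigOperators ComplexConjugate

namespace Pool.Agent.W201

open H370

/-- union of the open `r`-neighbourhoods -/
def UU (r : ℝ) (S : Finset ℝ) : Set ℝ := {t | ∃ x ∈ S, t ∈ Ioo (x - r) (x + r)}

/-- the points whose `r`-neighbourhood is contained in `UU r S` -/
def WW (r : ℝ) (S : Finset ℝ) : Set ℝ := {t | Ioo (t - r) (t + r) ⊆ UU r S}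

/-- extension of a test matrix by one link `x1 - x2` -/
noncomputable def ext (x1 x2 : ℝ) (S1 : Finset ℝ) (A : ℝ → ℝ → ℝ) (t : ℝ) (x y : ℝ) : ℝ := by
  classical
  exact (if x ∈ S1 ∧ y ∈ S1 then A x y else 0) + (if x = x1 ∧ y = x2 then t else 0) +
    (if x = x2 ∧ y = x1 then t else 0)

lemma ext_sum (x1 x2 : ℝ) (S1 : Finset ℝ) (h1 : x1 ∉ S1) (h2 : x2 ∈ S1) (A : ℝ → ℝ → ℝ) (t : ℝ)
    (L : ℝ → ℝ → ℝ) :
    ∑ x ∈ insert x1 S1, ∑ y ∈ insert x1 S1, ext x1 x2 S1 A t x y * L x y =
      ∑ x ∈ S1, ∑ y ∈ S1, A x y * L x y + t * (L x1 x2 + L x2 x1) := by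
  classical
  have e : ∀ x y, ext x1 x2 S1 A t x y * L x y =
      (if x ∈ S1 then (if y ∈ S1 then A x y * L x y else 0) else 0) +
      (if x = x1 then (if y = x2 then t * L x y else 0) else 0) +
      (if x = x2 then (if y = x1 then t * L x y else 0) else 0) := by
    intro x y
    simp only [ext, add_mul, ite_and, ite_mul, zero_mul]
  simp_rw [e, Finset.sum_add_distrib]
  have hx2 : x2 ∈ insert x1 S1 := Finset.mem_insert_of_mem h2
  have hx1 : x1 ∈ insert x1 S1 := Finset.mem_insert_self _ _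
  have s1 : ∑ x ∈ insert x1 S1, ∑ y ∈ insert x1 S1,
      (if x ∈ S1 then (if y ∈ S1 then A x y * L x y else 0) else 0) =
      ∑ x ∈ S1, ∑ y ∈ S1, A x y * L x y := by
    rw [Finset.sum_insert h1]
    have hz : ∑ y ∈ insert x1 S1,
        (if x1 ∈ S1 then (if y ∈ S1 then A x1 y * L x1 y else 0) else 0) = 0 := by
      refine Finset.sum_eq_zero fun y _ => ?_
      rw [if_neg h1]
    rw [hz, zero_add]
    refine Finset.sum_congr rfl fun x hx => ?_
    rw [Finset.sum_insert h1]
    simp only [if_pos hx, if_neg h1, zero_add]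
    exact Finset.sum_congr rfl fun y hy => by rw [if_pos hy]
  have s2 : ∑ x ∈ insert x1 S1, ∑ y ∈ insert x1 S1,
      (if x = x1 then (if y = x2 then t * L x y else 0) else 0) = t * L x1 x2 := by
    rw [Finset.sum_eq_single_of_mem x1 hx1]
    · rw [Finset.sum_eq_single_of_mem x2 hx2]
      · simp
      · intro y _ hy
        simp [hy]
    · intro x _ hx
      refine Finset.sum_eq_zero fun y _ => ?_
      rw [if_neg hx]
  have s3 : ∑ x ∈ insert x1 S1, ∑ y ∈ insert x1 S1,
      (if x = x2 then (if y = x1 then t * L x y else 0) else 0) = t * L x2 x1 := by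
    rw [Finset.sum_eq_single_of_mem x2 hx2]
    · rw [Finset.sum_eq_single_of_mem x1 hx1]
      · simp
      · intro y _ hy
        simp [hy]
    · intro x _ hx
      refine Finset.sum_eq_zero fun y _ => ?_
      rw [if_neg hx]
  rw [s1, s2, s3]
  ring

lemma ext_sq (x1 x2 : ℝ) (S1 : Finset ℝ) (h1 : x1 ∉ S1) (h2 : x2 ∈ S1) (A : ℝ → ℝ → ℝ) (t : ℝ)
    (x y : ℝ) :
    (ext x1 x2 S1 A t x y) ^ 2 = ext x1 x2 S1 (fun x y => A x y ^ 2) (t ^ 2) x y := by
  classical
  have hne : x2 ≠ x1 := fun h => h1 (h ▸ h2)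
  simp only [ext]
  by_cases c1 : x ∈ S1 ∧ y ∈ S1
  · have c2 : ¬ (x = x1 ∧ y = x2) := fun h => h1 (h.1 ▸ c1.1)
    have c3 : ¬ (x = x2 ∧ y = x1) := fun h => h1 (h.2 ▸ c1.2)
    simp only [if_pos c1, if_neg c2, if_neg c3, add_zero]
  · by_cases c2 : x = x1 ∧ y = x2
    · have c3 : ¬ (x = x2 ∧ y = x1) := fun h => hne (h.1.symm.trans c2.1)
      simp only [if_neg c1, if_pos c2, if_neg c3, add_zero, zero_add]
    · by_cases c3 : x = x2 ∧ y = x1
      · simp only [if_neg c1, if_neg c2, if_pos c3, zero_add]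
      · simp only [if_neg c1, if_neg c2, if_neg c3, add_zero]
        norm_num

lemma ext_YT (Λ : ℝ) (x1 x2 : ℝ) (S1 : Finset ℝ) (h1 : x1 ∉ S1) (h2 : x2 ∈ S1)
    (A : ℝ → ℝ → ℝ) (t : ℝ) :
    YT Λ (insert x1 S1) (ext x1 x2 S1 A t) =
      YT Λ S1 A + (4 * t * (phi Λ ((x1 : ℂ) - x2)).re - 2 * t ^ 2) := by
  have hne : x1 ≠ x2 := fun h => h1 (h ▸ h2)
  unfold YT
  rw [ext_sum x1 x2 S1 h1 h2]
  have e2 : ∑ x ∈ insert x1 S1, ∑ y ∈ insert x1 S1, (ext x1 x2 S1 A t x y) ^ 2 =
      ∑ x ∈ S1, ∑ y ∈ S1, A x y ^ 2 + 2 * t ^ 2 := by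
    have := ext_sum x1 x2 S1 h1 h2 (fun x y => A x y ^ 2) (t ^ 2) (fun _ _ => 1)
    simp only [mul_one] at this
    simp_rw [ext_sq x1 x2 S1 h1 h2]
    rw [this]
    ring
  rw [e2, if_neg hne, if_neg hne.symm, phi_sub_symm Λ x2 x1]
  ring

/-! ### Measure of the neighbourhoods -/

lemma UU_mono {r : ℝ} {S S' : Finset ℝ} (h : S ⊆ S') : UU r S ⊆ UU r S' :=
  fun _ ⟨x, hx, ht⟩ => ⟨x, h hx, ht⟩

lemma WW_mono {r : ℝ} {S S' : Finset ℝ} (h : S ⊆ S') : WW r S ⊆ WW r S' :=
  fun _ ht => ht.trans (UU_mono h)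

lemma UU_open (r : ℝ) (S : Finset ℝ) : IsOpen (UU r S) := by
  have : UU r S = ⋃ x ∈ S, Ioo (x - r) (x + r) := by
    ext t
    rw [Set.mem_iUnion₂]
    constructor
    · rintro ⟨x, hx, ht⟩
      exact ⟨x, hx, ht⟩
    · rintro ⟨x, hx, ht⟩
      exact ⟨x, hx, ht⟩
  rw [this]
  exact isOpen_biUnion fun x _ => isOpen_Ioo

lemma UU_sub {r a b : ℝ} {S : Finset ℝ} (h : ∀ x ∈ S, a ≤ x ∧ x ≤ b) :
    UU r S ⊆ Ioo (a - r) (b + r) := by
  rintro t ⟨x, hx, h1, h2⟩
  have := h x hx
  exact ⟨by linarith [this.1], by linarith [this.2]⟩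

lemma WW_sub {r a b : ℝ} (hr : 0 < r) {S : Finset ℝ} (h : ∀ x ∈ S, a ≤ x ∧ x ≤ b) :
    WW r S ⊆ Icc a b := by
  intro t ht
  have h1 : Ioo (t - r) (t + r) ⊆ Ioo (a - r) (b + r) := ht.trans (UU_sub h)
  have h2 := (Ioo_subset_Ioo_iff (by linarith : t - r < t + r)).mp h1
  exact ⟨by linarith [h2.1], by linarith [h2.2]⟩

lemma vol_fin {s : Set ℝ} {a b : ℝ} (h : s ⊆ Icc a b) : volume s ≠ ⊤ :=
  ((measure_mono h).trans_lt (by rw [Real.volume_Icc]; exact ENNReal.ofReal_lt_top)).ne

lemma vol_add {A B C : Set ℝ} {a b : ℝ} (hC : C ⊆ Icc a b) (hA : MeasurableSet A)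
    (hAC : A ⊆ C) (hBC : B ⊆ C) (hd : Disjoint A B) :
    (volume A).toReal + (volume B).toReal ≤ (volume C).toReal := by
  have hfC := vol_fin hC
  have hfA := vol_fin (hAC.trans hC)
  have hfB := vol_fin (hBC.trans hC)
  rw [← ENNReal.toReal_add hfA hfB, ← measure_union' hd hA]
  exact ENNReal.toReal_mono hfC (measure_mono (union_subset hAC hBC))

/-- adding a point to the left -/
lemma vol_step {r x1 x2 : ℝ} (hr : 0 < r) (h12 : x1 < x2) {S1 : Finset ℝ} (h2 : x2 ∈ S1)
    (hm : ∀ x ∈ S1, x2 ≤ x) {b : ℝ} (hb : ∀ x ∈ S1, x ≤ b) :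
    min (x2 - x1) (2 * r) + (volume (UU r S1)).toReal ≤ (volume (UU r (insert x1 S1))).toReal ∧
    (if x2 - x1 < 2 * r then x2 - x1 else 0) + (volume (WW r S1)).toReal ≤
      (volume (WW r (insert x1 S1))).toReal := by
  have hall : ∀ x ∈ insert x1 S1, x1 ≤ x ∧ x ≤ b := by
    intro x hx
    rcases Finset.mem_insert.mp hx with rfl | hx
    · exact ⟨le_rfl, h12.le.trans (hb x2 h2)⟩
    · exact ⟨h12.le.trans (hm x hx), hb x hx⟩
  have hsub : S1 ⊆ insert x1 S1 := Finset.subset_insert _ _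
  have hUb : UU r (insert x1 S1) ⊆ Icc (x1 - r) (b + r) :=
    (UU_sub hall).trans Ioo_subset_Icc_self
  have hWb : WW r (insert x1 S1) ⊆ Icc x1 b := WW_sub hr hall
  have hU1 : UU r S1 ⊆ Ioi (x2 - r) := by
    rintro t ⟨x, hx, h1, -⟩
    have := hm x hx
    simp only [mem_Ioi]
    linarith
  have hW1 : WW r S1 ⊆ Ici x2 := fun t ht =>
    (WW_sub hr (a := x2) (b := b) (fun x hx => ⟨hm x hx, hb x hx⟩) ht).1
  constructor
  · set m := min (x2 - x1) (2 * r) with hm'
    have hm0 : 0 < m := lt_min (by linarith) (by linarith)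
    have hmA : m ≤ x2 - x1 := min_le_left _ _
    have hmB : m ≤ 2 * r := min_le_right _ _
    have hA : Ioo (x1 - r) (x1 - r + m) ⊆ UU r (insert x1 S1) := by
      intro t ht
      exact ⟨x1, Finset.mem_insert_self _ _, ht.1, by linarith [ht.2]⟩
    have hd : Disjoint (Ioo (x1 - r) (x1 - r + m)) (UU r S1) := by
      rw [Set.disjoint_left]
      intro t ht ht1
      have := hU1 ht1
      simp only [mem_Ioi] at this
      linarith [ht.2]
    have h := vol_add hUb measurableSet_Ioo hA (UU_mono hsub) hd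
    rw [Real.volume_Ioo, ENNReal.toReal_ofReal (by linarith)] at h
    linarith
  · split_ifs with hlt
    · have hA : Ico x1 x2 ⊆ WW r (insert x1 S1) := by
        intro t ht s hs
        by_cases hc : s < x1 + r
        · exact ⟨x1, Finset.mem_insert_self _ _, by linarith [hs.1, ht.1], hc⟩
        · push Not at hc
          exact ⟨x2, Finset.mem_insert_of_mem h2, by linarith, by linarith [hs.2, ht.2]⟩
      have hd : Disjoint (Ico x1 x2) (WW r S1) := by
        rw [Set.disjoint_left]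
        intro t ht ht1
        have := hW1 ht1
        simp only [mem_Ici] at this
        linarith [ht.2]
      have h := vol_add hWb measurableSet_Ico hA (WW_mono hsub) hd
      rw [Real.volume_Ico, ENNReal.toReal_ofReal (by linarith)] at h
      exact h
    · rw [zero_add]
      exact ENNReal.toReal_mono (vol_fin hWb) (measure_mono (WW_mono hsub))

/-- the chain lemma -/
theorem chain {Λ r ν δ : ℝ} (hr : 0 < r) (hν : 0 ≤ ν)
    (hk : ∀ x y : ℝ, x < y → ∃ t : ℝ, |t| ≤ 1 / 2 ∧
      1 - (4 * t * (phi Λ ((x : ℂ) - y)).re - 2 * t ^ 2) ≤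
        if y - x < 2 * r then (2 * ν + δ) * (y - x) else ν * (2 * r) + δ * (y - x)) :
    ∀ (n : ℕ) (S : Finset ℝ), S.card = n → ∀ hne : S.Nonempty,
      ∃ Y : ℝ → ℝ → ℝ, (∀ v : ℝ → ℂ, ∑ x ∈ S, ∑ y ∈ S, Y x y * (conj (v x) * v y).re ≤
          ∑ x ∈ S, ‖v x‖ ^ 2 - 1 / 2 * ‖v (S.min' hne)‖ ^ 2) ∧
        (S.card : ℝ) - YT Λ S Y ≤ 1 + ν * ((volume (UU r S)).toReal + (volume (WW r S)).toReal) +
          δ * (S.max' hne - S.min' hne) := by
  classical
  intro n
  induction n using Nat.strong_induction_on with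
  | _ n ih =>
    intro S hSn hne
    set x1 := S.min' hne with hx1
    have hx1S : x1 ∈ S := S.min'_mem hne
    set S1 := S.erase x1 with hS1
    have hSins : insert x1 S1 = S := Finset.insert_erase hx1S
    have hx1S1 : x1 ∉ S1 := Finset.notMem_erase _ _
    rcases S1.eq_empty_or_nonempty with hS1e | hS1ne
    · have hS : S = {x1} := by rw [← hSins, hS1e]; rfl
      refine ⟨fun _ _ => 0, fun v => ?_, ?_⟩
      · simp only [zero_mul, Finset.sum_const_zero]
        have : ‖v x1‖ ^ 2 ≤ ∑ x ∈ S, ‖v x‖ ^ 2 :=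
          Finset.single_le_sum (f := fun x => ‖v x‖ ^ 2) (fun x _ => by positivity) hx1S
        have h0 : 0 ≤ ‖v x1‖ ^ 2 := by positivity
        linarith
      · have e1 : YT Λ S (fun _ _ => 0) = 0 := by unfold YT; simp
        have e2 : S.max' hne = x1 := by
          have h3 : ∀ z ∈ S, z = x1 := by
            intro z hz
            rw [hS] at hz
            exact Finset.mem_singleton.mp hz
          exact h3 _ (S.max'_mem hne)
        have e3 : (S.card : ℝ) = 1 := by rw [hS]; simp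
        rw [e1, e2, e3, sub_self, mul_zero]
        have : 0 ≤ ν * ((volume (UU r S)).toReal + (volume (WW r S)).toReal) := by positivity
        linarith
    · have hc1 : S1.card < n := by rw [← hSn]; exact Finset.card_erase_lt_of_mem hx1S
      obtain ⟨Y1, hY1, hY1c⟩ := ih _ hc1 S1 rfl hS1ne
      set x2 := S1.min' hS1ne with hx2
      have hx2S1 : x2 ∈ S1 := S1.min'_mem hS1ne
      have hx2S : x2 ∈ S := Finset.mem_of_mem_erase hx2S1
      have h12 : x1 < x2 := lt_of_le_of_ne (S.min'_le x2 hx2S)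
        (Ne.symm (Finset.ne_of_mem_erase hx2S1))
      have hm : ∀ x ∈ S1, x2 ≤ x := fun x hx => S1.min'_le x hx
      have hmax : S1.max' hS1ne = S.max' hne := by
        apply le_antisymm
        · exact S.le_max' _ (Finset.mem_of_mem_erase (S1.max'_mem hS1ne))
        · apply S1.le_max'
          rw [hS1, Finset.mem_erase]
          refine ⟨?_, S.max'_mem hne⟩
          have := S.le_max' x2 hx2S
          exact (h12.trans_le this).ne'
      have hb : ∀ x ∈ S1, x ≤ S.max' hne := fun x hx =>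
        S.le_max' x (Finset.mem_of_mem_erase hx)
      obtain ⟨t, ht, htc⟩ := hk x1 x2 h12
      obtain ⟨hv1, hv2⟩ := vol_step hr h12 hx2S1 hm hb
      rw [hSins] at hv1 hv2
      refine ⟨ext x1 x2 S1 Y1 t, fun v => ?_, ?_⟩
      · have h1 := ext_sum x1 x2 S1 hx1S1 hx2S1 Y1 t (fun x y => (conj (v x) * v y).re)
        rw [hSins] at h1
        rw [h1]
        have h2 := hY1 v
        have h3 : ∑ x ∈ S, ‖v x‖ ^ 2 = ‖v x1‖ ^ 2 + ∑ x ∈ S1, ‖v x‖ ^ 2 := by
          rw [← hSins, Finset.sum_insert hx1S1]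
        rw [h3]
        have h4 : (conj (v x1) * v x2).re + (conj (v x2) * v x1).re =
            2 * (conj (v x1) * v x2).re := by
          simp only [Complex.mul_re, Complex.conj_re, Complex.conj_im]
          ring
        have h5 : |(conj (v x1) * v x2).re| ≤ ‖v x1‖ * ‖v x2‖ := by
          refine (Complex.abs_re_le_norm _).trans ?_
          rw [norm_mul, Complex.norm_conj]
        have h6 : t * (2 * (conj (v x1) * v x2).re) ≤
            1 / 2 * (‖v x1‖ ^ 2 + ‖v x2‖ ^ 2) := by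
          have a1 : t * (2 * (conj (v x1) * v x2).re) ≤ |t| * (2 * |(conj (v x1) * v x2).re|) := by
            have := le_abs_self (t * (2 * (conj (v x1) * v x2).re))
            rw [abs_mul, abs_mul, abs_two] at this
            exact this
          have a2 : |t| * (2 * |(conj (v x1) * v x2).re|) ≤ 1 / 2 * (2 * (‖v x1‖ * ‖v x2‖)) := by
            apply mul_le_mul ht _ (by positivity) (by norm_num)
            linarith
          have a3 := two_mul_le_add_sq (‖v x1‖) (‖v x2‖)
          linarith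
        rw [h4]
        linarith
      · have h1 := ext_YT Λ x1 x2 S1 hx1S1 hx2S1 Y1 t
        rw [hSins] at h1
        rw [h1]
        have h2 : (S.card : ℝ) = S1.card + 1 := by
          rw [← hSins, Finset.card_insert_of_notMem hx1S1]; push_cast; ring
        rw [h2]
        rw [hmax] at hY1c
        by_cases hlt : x2 - x1 < 2 * r
        · rw [if_pos hlt] at htc hv2
          rw [min_eq_left hlt.le] at hv1
          have h3 : ν * ((x2 - x1 + (volume (UU r S1)).toReal) + (x2 - x1 +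
              (volume (WW r S1)).toReal)) ≤
              ν * ((volume (UU r S)).toReal + (volume (WW r S)).toReal) :=
            mul_le_mul_of_nonneg_left (by linarith) hν
          nlinarith
        · rw [if_neg hlt] at htc hv2
          push Not at hlt
          rw [min_eq_right hlt] at hv1
          have h3 : ν * ((2 * r + (volume (UU r S1)).toReal) + (0 +
              (volume (WW r S1)).toReal)) ≤
              ν * ((volume (UU r S)).toReal + (volume (WW r S)).toReal) :=
            mul_le_mul_of_nonneg_left (by linarith) hν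
          nlinarith

/-- the shifted sets are disjoint if there is no pair of points with difference in the window -/
lemma disj {r a : ℝ} {S : Finset ℝ}
    (h : ∀ x ∈ S, ∀ y ∈ S, ¬ (a < y - x ∧ y - x < a + 2 * r)) :
    Disjoint (UU r S) ((fun t => t + (a + r)) '' WW r S) := by
  rw [Set.disjoint_left]
  rintro t ⟨y, hy, hy1, hy2⟩ ⟨s, hs, hst⟩
  have h1 : y - (a + r) ∈ Ioo (s - r) (s + r) := by
    simp only at hst
    constructor <;> linarith
  obtain ⟨x, hx, hx1, hx2⟩ := hs h1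
  exact h x hx y hy ⟨by linarith, by linarith⟩

theorem chain_total {Λ r ν δ a A B : ℝ} (hr : 0 < r) (hν : 0 ≤ ν) (hδ : 0 ≤ δ) (ha : 0 ≤ a)
    (hAB : A ≤ B)
    (hk : ∀ x y : ℝ, x < y → ∃ t : ℝ, |t| ≤ 1 / 2 ∧
      1 - (4 * t * (phi Λ ((x : ℂ) - y)).re - 2 * t ^ 2) ≤
        if y - x < 2 * r then (2 * ν + δ) * (y - x) else ν * (2 * r) + δ * (y - x))
    (S : Finset ℝ) (hS : ∀ x ∈ S, A ≤ x ∧ x ≤ B)
    (hw : ∀ x ∈ S, ∀ y ∈ S, ¬ (a < y - x ∧ y - x < a + 2 * r)) :
    ∃ Y : ℝ → ℝ → ℝ, (∀ v : ℝ → ℂ, ∑ x ∈ S, ∑ y ∈ S, Y x y * (conj (v x) * v y).re ≤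
          ∑ x ∈ S, ‖v x‖ ^ 2) ∧
        (S.card : ℝ) - YT Λ S Y ≤ 1 + ν * (B - A + a + 3 * r) + δ * (B - A) := by
  classical
  rcases S.eq_empty_or_nonempty with hSe | hne
  · subst hSe
    refine ⟨fun _ _ => 0, fun v => by simp, ?_⟩
    have : 0 ≤ ν * (B - A + a + 3 * r) := mul_nonneg hν (by linarith)
    have h2 : 0 ≤ δ * (B - A) := mul_nonneg hδ (by linarith)
    simp only [YT, Finset.sum_empty, Finset.card_empty]
    norm_num
    linarith
  · obtain ⟨Y, hY, hYc⟩ := chain hr hν hk S.card S rfl hne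
    refine ⟨Y, fun v => (hY v).trans (by
      have : 0 ≤ ‖v (S.min' hne)‖ ^ 2 := by positivity
      linarith), hYc.trans ?_⟩
    have hU : UU r S ⊆ Icc (A - r) (B + a + 2 * r) := by
      refine ((UU_sub hS).trans Ioo_subset_Icc_self).trans (Icc_subset_Icc le_rfl (by linarith))
    have hW : (fun t => t + (a + r)) '' WW r S ⊆ Icc (A - r) (B + a + 2 * r) := by
      rintro _ ⟨t, ht, rfl⟩
      have := WW_sub hr hS ht
      simp only [mem_Icc] at this ⊢
      constructor <;> linarith [this.1, this.2]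
    have h1 := vol_add (C := Icc (A - r) (B + a + 2 * r)) Subset.rfl (UU_open r S).measurableSet
      hU hW (disj hw)
    have h2 : (volume ((fun t => t + (a + r)) '' WW r S)).toReal = (volume (WW r S)).toReal := by
      rw [Set.image_add_right, measure_preimage_add_right]
    rw [h2, Real.volume_Icc, ENNReal.toReal_ofReal (by linarith)] at h1
    have h3 : S.max' hne - S.min' hne ≤ B - A := by
      linarith [(hS _ (S.max'_mem hne)).2, (hS _ (S.min'_mem hne)).1]
    have h4 := mul_le_mul_of_nonneg_left h1 hν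
    have h5 := mul_le_mul_of_nonneg_left h3 hδ
    have e : B + a + 2 * r - (A - r) = B - A + a + 3 * r := by ring
    rw [e] at h4
    linarith

end Pool.Agent.W201
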