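import Pool.Agent.H370R2.Expl1
import Pool.Agent.H344R2.Kernel
import Pool.Agent.H370R2.Fin4

/-!
# Numerical bounds for the Montgomery-Taylor kernel
-/

open Complex Filter Topology Set MeasureTheory
open scoped BigOperators

namespace Pool.Agent.W201

open H370

lemma KK_formula (u : ℝ) : Expl.qq * ((2 * Real.pi * u) ^ 2 - 2) * H344.KK u =
    2 * (2 * Real.pi * u * Real.sin (Real.pi * u) - Expl.qq * Real.cos (Real.pi * u)) := by
  have h := Expl.KK_eq (2 * Real.pi * u)
  unfold Expl.PPx Expl.KK at h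
  rw [show 2 * Real.pi * u / 2 = Real.pi * u by ring] at h
  exact h

lemma pi_sq_lo : 9.869 < Real.pi ^ 2 := by
  have := Real.pi_gt_d4
  nlinarith

lemma pi_sq_hi : Real.pi ^ 2 < 9.8697 := by
  have := Real.pi_lt_d4
  have := Real.pi_pos
  nlinarith

/-- lower bound for the kernel between `1/2` and `1` -/
lemma KK_low {u l : ℝ} (h0 : 3 / 5 ≤ u) (h1 : u ≤ 1) (hl0 : 0 ≤ l)
    (hl : (39.4788 * u ^ 2 - 2) * l ≤ 4 * u * (1 - u) / 1.21 * (9.869 - 16.2352 * (1 - u) ^ 2) + 2
      - 9.8697 * (1 - u) ^ 2) : l ≤ H344.KK u := by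
  have hP1 := pi_sq_lo
  have hP2 := pi_sq_hi
  have hpi := Real.pi_pos
  have hq := Expl.qq_pos
  have hq1 := Expl.qq_lt
  set P := Real.pi ^ 2 with hP
  have hx : (2 * Real.pi * u) ^ 2 = 4 * P * u ^ 2 := by rw [hP]; ring
  have hx0 : 0 < 4 * P * u ^ 2 - 2 := by nlinarith
  have hf := KK_formula u
  rw [hx] at hf
  set y := Real.pi * (1 - u) with hy
  have hy0 : 0 ≤ y := mul_nonneg hpi.le (by linarith)
  have hy2 : y ^ 2 = P * (1 - u) ^ 2 := by rw [hy, hP]; ring
  have hs : Real.sin (Real.pi * u) = Real.sin y := by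
    rw [hy, show Real.pi * (1 - u) = Real.pi - Real.pi * u by ring, Real.sin_pi_sub]
  have hc : Real.cos (Real.pi * u) = - Real.cos y := by
    rw [hy, show Real.pi * (1 - u) = Real.pi - Real.pi * u by ring, Real.cos_pi_sub, neg_neg]
  rw [hs, hc] at hf
  have h2 := Real.sin_ge_sub_cube hy0
  have h3 := Real.one_sub_sq_div_two_le_cos (x := y)
  -- `x (y - y^3/6) = 2 u (1-u) (P - P^2 (1-u)^2 / 6)`
  have h4 : 2 * u * (1 - u) * (9.869 - 16.2352 * (1 - u) ^ 2) ≤
      2 * Real.pi * u * Real.sin y := by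
    have e1 : 2 * Real.pi * u * (y - y ^ 3 / 6) = 2 * u * (1 - u) * (P - P ^ 2 * (1 - u) ^ 2 / 6) := by
      rw [hy, hP]; ring
    have h5 : 2 * Real.pi * u * (y - y ^ 3 / 6) ≤ 2 * Real.pi * u * Real.sin y :=
      mul_le_mul_of_nonneg_left h2 (by positivity)
    refine le_trans ?_ h5
    rw [e1]
    apply mul_le_mul_of_nonneg_left _ (mul_nonneg (by linarith) (by linarith))
    have h6 : P ^ 2 ≤ 97.411 := by nlinarith
    have h7 : P ^ 2 * (1 - u) ^ 2 / 6 ≤ 16.2352 * (1 - u) ^ 2 := by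
      have : 0 ≤ (1 - u) ^ 2 := sq_nonneg _
      nlinarith
    linarith
  have h8 : 1 - 9.8697 * (1 - u) ^ 2 / 2 ≤ Real.cos y := by
    refine le_trans ?_ h3
    rw [hy2]
    have : 0 ≤ (1 - u) ^ 2 := sq_nonneg _
    nlinarith
  -- divide by `qq`
  have h10 : 0 ≤ 2 * u * (1 - u) * (9.869 - 16.2352 * (1 - u) ^ 2) := by
    apply mul_nonneg (mul_nonneg (by linarith) (by linarith))
    nlinarith
  have h11 : Expl.qq * (2 * u * (1 - u) * (9.869 - 16.2352 * (1 - u) ^ 2) / 1.21) ≤
      2 * Real.pi * u * Real.sin y := by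
    refine le_trans ?_ h4
    have : Expl.qq * (2 * u * (1 - u) * (9.869 - 16.2352 * (1 - u) ^ 2) / 1.21) =
      (Expl.qq / 1.21) * (2 * u * (1 - u) * (9.869 - 16.2352 * (1 - u) ^ 2)) := by ring
    rw [this]
    have h12 : Expl.qq / 1.21 ≤ 1 := by rw [div_le_one (by norm_num)]; exact hq1
    nlinarith
  have h13 : (4 * P * u ^ 2 - 2) * l ≤ (39.4788 * u ^ 2 - 2) * l := by
    apply mul_le_mul_of_nonneg_right _ hl0
    have : 0 ≤ u ^ 2 := sq_nonneg u
    nlinarith
  have h14 : Expl.qq * ((4 * P * u ^ 2 - 2) * l) ≤ Expl.qq * ((4 * P * u ^ 2 - 2) * H344.KK u) := by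
    have e2 : Expl.qq * ((4 * P * u ^ 2 - 2) * H344.KK u) =
        2 * (2 * Real.pi * u * Real.sin y - Expl.qq * -Real.cos y) := by rw [← hf]; ring
    rw [e2]
    have h15 : Expl.qq * (1 - 9.8697 * (1 - u) ^ 2 / 2) ≤ Expl.qq * Real.cos y :=
      mul_le_mul_of_nonneg_left h8 hq.le
    have h16 : Expl.qq * ((4 * P * u ^ 2 - 2) * l) ≤ Expl.qq * (4 * u * (1 - u) / 1.21 *
        (9.869 - 16.2352 * (1 - u) ^ 2) + 2 - 9.8697 * (1 - u) ^ 2) :=
      mul_le_mul_of_nonneg_left (h13.trans hl) hq.le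
    have e3 : Expl.qq * (4 * u * (1 - u) / 1.21 *
        (9.869 - 16.2352 * (1 - u) ^ 2) + 2 - 9.8697 * (1 - u) ^ 2) =
        2 * (Expl.qq * (2 * u * (1 - u) * (9.869 - 16.2352 * (1 - u) ^ 2) / 1.21)) +
        2 * (Expl.qq * (1 - 9.8697 * (1 - u) ^ 2 / 2)) := by ring
    rw [e3] at h16
    linarith
  have h17 := le_of_mul_le_mul_left h14 hq
  exact le_of_mul_le_mul_left h17 hx0

/-- the gap function: for every `u ≥ 0` there is `0 ≤ t ≤ 1/2` with
`1 - (4 t K(u) - 2 t²) ≤ 1.09 u` -/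
lemma gap_small {u : ℝ} (h0 : 0 ≤ u) :
    ∃ t : ℝ, 0 ≤ t ∧ t ≤ 1 / 2 ∧ 1 - (4 * t * H344.KK u - 2 * t ^ 2) ≤ 1.09 * u := by
  rcases le_or_gt u 0.6198 with h1 | h1
  · refine ⟨1 / 2, by norm_num, le_rfl, ?_⟩
    have h2 := H344.KK_lower u
    have h3 := Expl.cMTinv_num
    have h4 : (2 * Real.pi * u) ^ 2 / 2 * (cMTinv - 5 / 4) ≤ 19.7394 * u ^ 2 * 0.077503 := by
      have h5 : (2 * Real.pi * u) ^ 2 / 2 = 2 * Real.pi ^ 2 * u ^ 2 := by ring
      rw [h5]
      apply mul_le_mul
      · have := pi_sq_hi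
        have h6 : 0 ≤ u ^ 2 := sq_nonneg u
        nlinarith
      · linarith
      · have := H344.cMTinv_ge; linarith
      · positivity
    have h7 : 1 - 1.52987 * u ^ 2 ≤ H344.KK u := by
      have h6 : 0 ≤ u ^ 2 := sq_nonneg u
      norm_num at h4 ⊢
      nlinarith
    norm_num at h7 ⊢
    nlinarith
  · rcases le_or_gt u 0.85 with h2 | h2
    · refine ⟨1 / 4, by norm_num, by norm_num, ?_⟩
      have h3 : 1.125 - 1.09 * u ≤ H344.KK u := by
        refine KK_low (by linarith) (by linarith) (by nlinarith) ?_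
        have e : 4 * u * (1 - u) / 1.21 * (9.869 - 16.2352 * (1 - u) ^ 2) + 2
            - 9.8697 * (1 - u) ^ 2 - (39.4788 * u ^ 2 - 2) * (1.125 - 1.09 * u) ≥ 0 := by
          rcases le_or_gt u 0.7349 with c1 | c1
          · set s := u - 0.6198 with hs
            have hu : u = s + 0.6198 := by rw [hs]; ring
            have hs0 : 0 ≤ s := by linarith
            have hs1 : s ≤ 0.1151 := by linarith
            have p2 : s ^ 2 ≤ 0.1151 ^ 2 := pow_le_pow_left₀ hs0 hs1 2
            have p3 : 0 ≤ s ^ 3 := pow_nonneg hs0 3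
            have p4 : 0 ≤ s ^ 4 := pow_nonneg hs0 4
            rw [hu]
            norm_num at p2 ⊢
            nlinarith
          · set s := u - 0.7349 with hs
            have hu : u = s + 0.7349 := by rw [hs]; ring
            have hs0 : 0 ≤ s := by linarith
            have hs1 : s ≤ 0.1151 := by linarith
            have p2 : s ^ 2 ≤ 0.1151 ^ 2 := pow_le_pow_left₀ hs0 hs1 2
            have p3 : 0 ≤ s ^ 3 := pow_nonneg hs0 3
            have p4 : 0 ≤ s ^ 4 := pow_nonneg hs0 4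
            rw [hu]
            norm_num at p2 ⊢
            nlinarith
        linarith
      linarith
    · rcases le_or_gt u 0.9175 with h3 | h3
      · refine ⟨1 / 8, by norm_num, by norm_num, ?_⟩
        have h4 : 2.0625 - 2.18 * u ≤ H344.KK u := by
          refine KK_low (by linarith) (by linarith) (by nlinarith) ?_
          have e : 4 * u * (1 - u) / 1.21 * (9.869 - 16.2352 * (1 - u) ^ 2) + 2
              - 9.8697 * (1 - u) ^ 2 - (39.4788 * u ^ 2 - 2) * (2.0625 - 2.18 * u) ≥ 0 := by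
            set s := u - 0.85 with hs
            have hu : u = s + 0.85 := by rw [hs]; ring
            have hs0 : 0 ≤ s := by linarith
            have hs1 : s ≤ 0.0675 := by linarith
            have p2 : 0 ≤ s ^ 2 := pow_nonneg hs0 2
            have p3 : 0 ≤ s ^ 3 := pow_nonneg hs0 3
            have p4 : 0 ≤ s ^ 4 := pow_nonneg hs0 4
            rw [hu]
            norm_num
            nlinarith
          linarith
        linarith
      · refine ⟨0, le_rfl, by norm_num, ?_⟩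
        norm_num
        linarith

/-- the kernel is negative between `1.399` and `1.8065` -/
lemma KK_neg {u : ℝ} (h0 : 1.399 ≤ u) (h1 : u ≤ 1.8065) :
    (0.33197 - 0.15 * u) / 0.7 ≤ - H344.KK u := by
  have hP1 := pi_sq_lo
  have hP2 := pi_sq_hi
  have hpi := Real.pi_pos
  have hpi3 := Real.pi_gt_d4
  have hq := Expl.qq_pos
  have hq1 := Expl.qq_lt
  set P := Real.pi ^ 2 with hP
  have hx : (2 * Real.pi * u) ^ 2 = 4 * P * u ^ 2 := by rw [hP]; ring
  have hx0 : 0 < 4 * P * u ^ 2 - 2 := by nlinarith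
  have hf := KK_formula u
  rw [hx] at hf
  set w := u - 3 / 2 with hw
  have hu : u = w + 3 / 2 := by rw [hw]; ring
  have hsc : Real.pi * u = Real.pi * w + Real.pi / 2 + Real.pi := by rw [hu]; ring
  have hs : Real.sin (Real.pi * u) = - Real.cos (Real.pi * w) := by
    rw [hsc, Real.sin_add_pi, Real.sin_add_pi_div_two]
  have hc : Real.cos (Real.pi * u) = Real.sin (Real.pi * w) := by
    rw [hsc, Real.cos_add_pi, Real.cos_add_pi_div_two, neg_neg]
  rw [hs, hc] at hf
  have hm0 : 0 ≤ (0.33197 - 0.15 * u) / 0.7 := by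
    apply div_nonneg _ (by norm_num)
    norm_num at h1 ⊢
    linarith
  set m := (0.33197 - 0.15 * u) / 0.7 with hm
  have h3 := Real.one_sub_sq_div_two_le_cos (x := Real.pi * w)
  have h8 : 1 - 4.93485 * w ^ 2 ≤ Real.cos (Real.pi * w) := by
    refine le_trans ?_ h3
    rw [mul_pow]
    have : 0 ≤ w ^ 2 := sq_nonneg _
    norm_num at hP2 ⊢
    nlinarith
  have hw2 : 0 ≤ 1 - 4.93485 * w ^ 2 := by
    norm_num at h1 h0 ⊢
    nlinarith
  -- it suffices to bound the right side
  have key : ∀ R : ℝ, (39.4788 * u ^ 2 - 2) * m ≤ R →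
      R ≤ 2 * (2 * Real.pi * u * (1 - 4.93485 * w ^ 2) / 1.21 + Real.sin (Real.pi * w)) →
      m ≤ - H344.KK u := by
    intro R hR1 hR2
    have a1 : Expl.qq * (2 * Real.pi * u * (1 - 4.93485 * w ^ 2) / 1.21) ≤
        2 * Real.pi * u * Real.cos (Real.pi * w) := by
      have e1 : Expl.qq * (2 * Real.pi * u * (1 - 4.93485 * w ^ 2) / 1.21) =
        (Expl.qq / 1.21) * (2 * Real.pi * u * (1 - 4.93485 * w ^ 2)) := by ring
      rw [e1]
      have h12 : Expl.qq / 1.21 ≤ 1 := by rw [div_le_one (by norm_num)]; exact hq1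
      have h13 : 0 ≤ 2 * Real.pi * u := by norm_num at h0; positivity
      have h14 : 2 * Real.pi * u * (1 - 4.93485 * w ^ 2) ≤ 2 * Real.pi * u * Real.cos (Real.pi * w) :=
        mul_le_mul_of_nonneg_left h8 h13
      have h15 : 0 ≤ 2 * Real.pi * u * (1 - 4.93485 * w ^ 2) := mul_nonneg h13 hw2
      nlinarith
    have a2 : (4 * P * u ^ 2 - 2) * m ≤ (39.4788 * u ^ 2 - 2) * m := by
      apply mul_le_mul_of_nonneg_right _ hm0
      have : 0 ≤ u ^ 2 := sq_nonneg u
      norm_num at hP2 ⊢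
      nlinarith
    have a3 : Expl.qq * ((4 * P * u ^ 2 - 2) * m) ≤
        Expl.qq * ((4 * P * u ^ 2 - 2) * (- H344.KK u)) := by
      have e2 : Expl.qq * ((4 * P * u ^ 2 - 2) * (- H344.KK u)) =
          2 * (2 * Real.pi * u * Real.cos (Real.pi * w) + Expl.qq * Real.sin (Real.pi * w)) := by
        have : Expl.qq * ((4 * P * u ^ 2 - 2) * (- H344.KK u)) =
          - (Expl.qq * (4 * P * u ^ 2 - 2) * H344.KK u) := by ring
        rw [this, hf]; ring
      rw [e2]
      have h16 := mul_le_mul_of_nonneg_left ((a2.trans hR1).trans hR2) hq.le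
      have e3 : Expl.qq * (2 * (2 * Real.pi * u * (1 - 4.93485 * w ^ 2) / 1.21 +
          Real.sin (Real.pi * w))) =
          2 * (Expl.qq * (2 * Real.pi * u * (1 - 4.93485 * w ^ 2) / 1.21) +
            Expl.qq * Real.sin (Real.pi * w)) := by ring
      rw [e3] at h16
      linarith
    exact le_of_mul_le_mul_left (le_of_mul_le_mul_left a3 hq) hx0
  rcases le_or_gt w 0 with hw0 | hw0
  · refine key (6.283 * (2 * u * (1 - 4.93485 * w ^ 2) / 1.21 + w)) ?_ ?_
    · set s := w + 0.101 with hs'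
      have hws : w = s - 0.101 := by rw [hs']; ring
      have hus : u = s + 1.399 := by rw [hu, hws]; norm_num; ring
      have hs0 : 0 ≤ s := by norm_num at hus h0 ⊢; linarith
      have hs1 : s ≤ 0.101 := by linarith
      rw [hm, hus, hws]
      have p1 : 0 ≤ s * (27.48 - 44.57 * s - 42.79 * s ^ 2) := by
        apply mul_nonneg hs0
        norm_num at hs1 ⊢
        nlinarith
      have p2 : 0 ≤ s ^ 2 := sq_nonneg s
      have p3 : 0 ≤ s ^ 3 := pow_nonneg hs0 3
      norm_num at p1 ⊢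
      nlinarith
    · have b1 : Real.pi * w ≤ Real.sin (Real.pi * w) := by
        have := Real.sin_le (x := -(Real.pi * w)) (by nlinarith)
        rw [Real.sin_neg] at this
        linarith
      have b2 : 0 ≤ 2 * u * (1 - 4.93485 * w ^ 2) / 1.21 + w := by
        norm_num at h0 ⊢
        have : -0.101 ≤ w := by rw [hw]; norm_num; linarith
        norm_num at this
        nlinarith
      have b3 : 6.283 * (2 * u * (1 - 4.93485 * w ^ 2) / 1.21 + w) ≤
          2 * Real.pi * (2 * u * (1 - 4.93485 * w ^ 2) / 1.21 + w) := by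
        apply mul_le_mul_of_nonneg_right _ b2
        norm_num at hpi3 ⊢
        linarith
      refine b3.trans ?_
      have : 2 * (2 * Real.pi * u * (1 - 4.93485 * w ^ 2) / 1.21 + Real.sin (Real.pi * w)) =
        2 * Real.pi * (2 * u * (1 - 4.93485 * w ^ 2) / 1.21 + w) +
          2 * (Real.sin (Real.pi * w) - Real.pi * w) := by ring
      rw [this]
      linarith
  · refine key (2 * (6.283 * u * (1 - 4.93485 * w ^ 2) / 1.21 + 2 * w)) ?_ ?_
    · rcases le_or_gt w 0.15325 with c1 | c1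
      · have p2 : w ^ 2 ≤ 0.15325 ^ 2 := pow_le_pow_left₀ hw0.le c1 2
        have p3 : w ^ 3 ≤ 0.15325 ^ 3 := pow_le_pow_left₀ hw0.le c1 3
        rw [hm, hu]
        norm_num at p2 p3 ⊢
        nlinarith
      · set s := w - 0.15325 with hs'
        have hws : w = s + 0.15325 := by rw [hs']; ring
        have hs0 : 0 ≤ s := by linarith
        have hs1 : s ≤ 0.15325 := by
          rw [hs', hw]
          norm_num at h1 ⊢
          linarith
        have p2 : s ^ 2 ≤ 0.15325 ^ 2 := pow_le_pow_left₀ hs0 hs1 2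
        have p3 : s ^ 3 ≤ 0.15325 ^ 3 := pow_le_pow_left₀ hs0 hs1 3
        rw [hm, hu, hws]
        norm_num at p2 p3 hs1 ⊢
        nlinarith
    · have b1 : 2 * w ≤ Real.sin (Real.pi * w) := by
        have := Real.mul_le_sin (x := Real.pi * w) (by positivity) (by
          have : w ≤ 1 / 2 := by rw [hw]; norm_num at h1 ⊢; linarith
          nlinarith)
        have e : 2 / Real.pi * (Real.pi * w) = 2 * w := by field_simp
        rw [e] at this
        exact this
      have b2 : 6.283 * u * (1 - 4.93485 * w ^ 2) / 1.21 ≤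
          2 * Real.pi * u * (1 - 4.93485 * w ^ 2) / 1.21 := by
        apply div_le_div_of_nonneg_right _ (by norm_num)
        apply mul_le_mul_of_nonneg_right _ hw2
        apply mul_le_mul_of_nonneg_right _ (by norm_num at h0; linarith)
        norm_num at hpi3 ⊢
        linarith
      linarith

lemma gap_large {u : ℝ} (h0 : 1.399 ≤ u) :
    ∃ t : ℝ, |t| ≤ 1 / 2 ∧ 1 - (4 * t * H344.KK u - 2 * t ^ 2) ≤ 0.72928 + 0.15 * u := by
  rcases le_or_gt u 1.8065 with h1 | h1
  · refine ⟨-0.175, by rw [abs_neg, abs_of_pos (by norm_num)]; norm_num, ?_⟩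
    have h2 := KK_neg h0 h1
    rw [div_le_iff₀ (by norm_num)] at h2
    norm_num at h2 ⊢
    linarith
  · refine ⟨0, by norm_num, ?_⟩
    norm_num at h1 ⊢
    linarith

/-- passing from the kernel to the kernel with a Gaussian factor -/
lemma perturb {t K E c : ℝ} (ht : |t| ≤ 1 / 2) (hK : |K| ≤ 1) (hE0 : 0 ≤ 1 - E)
    (h : 1 - (4 * t * K - 2 * t ^ 2) ≤ c) :
    1 - (4 * t * (K * E) - 2 * t ^ 2) ≤ c + 2 * (1 - E) := by
  have h1 : |t * K| ≤ 1 / 2 := by
    rw [abs_mul]
    calc |t| * |K| ≤ 1 / 2 * 1 := mul_le_mul ht hK (abs_nonneg _) (by norm_num)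
      _ = 1 / 2 := by ring
  have h2 : 4 * (t * K) * (1 - E) ≤ 2 * (1 - E) := by
    apply mul_le_mul_of_nonneg_right _ hE0
    linarith [(abs_le.mp h1).2]
  have : 4 * t * (K * E) = 4 * t * K - 4 * (t * K) * (1 - E) := by ring
  linarith

lemma KK_abs (u : ℝ) : |H344.KK u| ≤ 1 := by
  unfold H344.KK
  have h := H344.kap_norm (2 * Real.pi * u) 0
  simp only [Complex.ofReal_zero, mul_zero, add_zero, abs_zero, zero_div, Real.exp_zero] at h
  exact (Complex.abs_re_le_norm _).trans h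

/-- the kernel at scale `Λ = θ log T`: bounds for the gaps, in units `σ = 2π / log T` -/
theorem scale {σ θ Λ : ℝ} (hσ0 : 0 < σ) (hσ1 : σ ≤ 1 / 100) (hθ0 : 0 < θ) (hθ1 : θ ≤ 1)
    (hΛ : Λ * σ = 2 * Real.pi * θ) :
    (∀ x y : ℝ, x < y → y - x < 1.83 * σ → ∃ t : ℝ, |t| ≤ 1 / 2 ∧
      1 - (4 * t * (phi Λ ((x : ℂ) - y)).re - 2 * t ^ 2) ≤ 1.1 / σ * (y - x)) ∧
    (1.399 ≤ 1.3995 * θ → ∀ x y : ℝ, 1.3995 * σ ≤ y - x → ∃ t : ℝ, |t| ≤ 1 / 2 ∧
      1 - (4 * t * (phi Λ ((x : ℂ) - y)).re - 2 * t ^ 2) ≤ 0.72928 + 0.1501 / σ * (y - x)) := by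
  have hphi : ∀ x y : ℝ, (phi Λ ((x : ℂ) - y)).re =
      H344.KK (θ * ((y - x) / σ)) * Real.exp (-(y - x) ^ 2 / 8) := by
    intro x y
    rw [phi_sub_symm, phi_sub_re]
    unfold H344.KK
    congr 4
    have : Λ = 2 * Real.pi * θ / σ := by rw [← hΛ]; field_simp
    rw [this]
    field_simp
  have hE : ∀ z : ℝ, 0 ≤ 1 - Real.exp (-z ^ 2 / 8) ∧ 1 - Real.exp (-z ^ 2 / 8) ≤ z ^ 2 / 8 := by
    intro z
    constructor
    · have : Real.exp (-z ^ 2 / 8) ≤ 1 := Real.exp_le_one_iff.mpr (by nlinarith [sq_nonneg z])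
      linarith
    · have := Real.add_one_le_exp (-z ^ 2 / 8)
      linarith
  constructor
  · intro x y hxy hlt
    set g := (y - x) / σ with hg
    have hg0 : 0 < g := div_pos (by linarith) hσ0
    have hgx : y - x = g * σ := by rw [hg]; field_simp
    have hg1 : g < 1.83 := by rw [hg, div_lt_iff₀ hσ0]; exact hlt
    obtain ⟨t, ht0, ht1, ht2⟩ := gap_small (u := θ * g) (by positivity)
    refine ⟨t, by rw [abs_of_nonneg ht0]; exact ht1, ?_⟩
    rw [hphi]
    have h1 := perturb (t := t) (E := Real.exp (-(y - x) ^ 2 / 8))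
      (by rw [abs_of_nonneg ht0]; exact ht1) (KK_abs (θ * g)) (hE (y - x)).1 ht2
    refine h1.trans ?_
    have h2 := (hE (y - x)).2
    have h3 : 1.1 / σ * (y - x) = 1.1 * g := by rw [hg]; ring
    rw [h3]
    have h4 : θ * g ≤ g := by nlinarith
    have h5 : (y - x) ^ 2 ≤ 0.04 * g := by
      rw [hgx]
      have h6 : g * σ ≤ 1.83 * (1 / 100) := by
        apply mul_le_mul hg1.le hσ1 hσ0.le (by norm_num)
      have h7 : (g * σ) ^ 2 = (g * σ) * σ * g := by ring
      rw [h7]
      apply mul_le_mul_of_nonneg_right _ hg0.le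
      have h8 : g * σ * σ ≤ 1.83 * (1 / 100) * (1 / 100) := by
        apply mul_le_mul h6 hσ1 hσ0.le (by norm_num)
      norm_num at h8 ⊢
      linarith
    norm_num at h5 ⊢
    linarith
  · intro hθ x y hge
    set g := (y - x) / σ with hg
    have hg1 : 1.3995 ≤ g := by rw [hg, le_div_iff₀ hσ0]; exact hge
    have hg0 : 0 < g := by norm_num at hg1; linarith
    have hgx : y - x = g * σ := by rw [hg]; field_simp
    rcases le_or_gt g 2 with hg2 | hg2
    · obtain ⟨t, ht1, ht2⟩ := gap_large (u := θ * g) (by nlinarith)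
      refine ⟨t, ht1, ?_⟩
      rw [hphi]
      have h1 := perturb (t := t) (E := Real.exp (-(y - x) ^ 2 / 8))
        ht1 (KK_abs (θ * g)) (hE (y - x)).1 ht2
      refine h1.trans ?_
      have h2 := (hE (y - x)).2
      have h3 : 0.1501 / σ * (y - x) = 0.1501 * g := by rw [hg]; ring
      rw [h3]
      have h4 : θ * g ≤ g := by nlinarith
      have h5 : (y - x) ^ 2 ≤ 0.0002 * g := by
        rw [hgx]
        have h6 : g * σ ≤ 2 * (1 / 100) := by
          apply mul_le_mul hg2 hσ1 hσ0.le (by norm_num)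
        have h7 : (g * σ) ^ 2 = (g * σ) * σ * g := by ring
        rw [h7]
        apply mul_le_mul_of_nonneg_right _ hg0.le
        have h8 : g * σ * σ ≤ 2 * (1 / 100) * (1 / 100) := by
          apply mul_le_mul h6 hσ1 hσ0.le (by norm_num)
        norm_num at h8 ⊢
        linarith
      norm_num at h5 ⊢
      linarith
    · refine ⟨0, by norm_num, ?_⟩
      have h3 : 0.1501 / σ * (y - x) = 0.1501 * g := by rw [hg]; ring
      rw [h3]
      norm_num
      linarith

end Pool.Agent.W201
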