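import Pool.Agent.W201.Chain
import Pool.Agent.W201.Kern
import Pool.Agent.H344R2.Close
import Pool.Agent.H295R2.Iso.A
import Pool.Agent.H24R3.PairsShort2

/-!
# Every window contains pairs: the counting argument
-/

open Complex Filter Topology Set MeasureTheory
open scoped BigOperators ComplexConjugate

namespace Pool.Agent.W201

open H370

/-- number of ordered pairs `(y, x)` of points of `S` with `a < y - x < b` -/
noncomputable def PC (S : Finset ℝ) (a b : ℝ) : ℕ :=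
  ∑ y ∈ S, (S.filter (fun x => a < y - x ∧ y - x < b)).card

lemma PC_add (S : Finset ℝ) {a b c : ℝ} (hab : a ≤ b) (hbc : b ≤ c) :
    PC S a b + PC S b c ≤ PC S a c := by
  classical
  unfold PC
  rw [← Finset.sum_add_distrib]
  refine Finset.sum_le_sum fun y _ => ?_
  rw [← Finset.card_union_of_disjoint]
  · apply Finset.card_le_card
    intro x hx
    rw [Finset.mem_union, Finset.mem_filter, Finset.mem_filter] at hx
    rw [Finset.mem_filter]
    rcases hx with ⟨h1, h2, h3⟩ | ⟨h1, h2, h3⟩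
    · exact ⟨h1, h2, by linarith⟩
    · exact ⟨h1, by linarith, h3⟩
  · rw [Finset.disjoint_left]
    intro x hx hx'
    have h1 := (Finset.mem_filter.mp hx).2.2
    have h2 := (Finset.mem_filter.mp hx').2.1
    linarith

lemma PC_mono {S S' : Finset ℝ} (h : S ⊆ S') {a b a' b' : ℝ} (ha : a' ≤ a) (hb : b ≤ b') :
    PC S a b ≤ PC S' a' b' := by
  classical
  unfold PC
  refine (Finset.sum_le_sum fun y _ => ?_).trans (Finset.sum_le_sum_of_subset h)
  apply Finset.card_le_card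
  intro x hx
  rw [Finset.mem_filter] at hx ⊢
  exact ⟨h hx.1, by linarith [hx.2.1], by linarith [hx.2.2]⟩

lemma PC_union {S S' R : Finset ℝ} (hS : S ⊆ R) (hS' : S' ⊆ R) (hd : Disjoint S S') (a b : ℝ) :
    PC S a b + PC S' a b ≤ PC R a b := by
  classical
  refine le_trans ?_ (PC_mono (Finset.union_subset hS hS') le_rfl le_rfl)
  unfold PC
  rw [Finset.sum_union hd]
  apply add_le_add
  · refine Finset.sum_le_sum fun y _ => Finset.card_le_card ?_
    exact Finset.filter_subset_filter _ Finset.subset_union_left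
  · refine Finset.sum_le_sum fun y _ => Finset.card_le_card ?_
    exact Finset.filter_subset_filter _ Finset.subset_union_right

/-- one window -/
theorem one_window {F : ℂ → ℂ} (hF : GoodL F) {U1 U2 : ℝ} (hU : 1 ≤ U1) (hU12 : U1 ≤ U2)
    {Λ r ν δ a : ℝ} (hr : 0 < r) (hν : 0 ≤ ν) (hδ : 0 ≤ δ) (ha : 0 ≤ a)
    (hk : ∀ x y : ℝ, x < y → ∃ t : ℝ, |t| ≤ 1 / 2 ∧
      1 - (4 * t * (phi Λ ((x : ℂ) - y)).re - 2 * t ^ 2) ≤
        if y - x < 2 * r then (2 * ν + δ) * (y - x) else ν * (2 * r) + δ * (y - x)) :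
    2 * (NN F U1 U2 : ℝ) - QQ F Λ U1 U2 - (1 + ν * (U2 - U1 + a + 3 * r) + δ * (U2 - U1)) ≤
      PC (SF F U1 U2) a (a + 2 * r) := by
  classical
  set S := SF F U1 U2 with hS
  set Bad := S.filter (fun y => ∃ x ∈ S, a < y - x ∧ y - x < a + 2 * r) with hBad
  set S' := S \ Bad with hS'
  have hBS : Bad ⊆ S := Finset.filter_subset _ _
  have hS'S : S' ⊆ S := Finset.sdiff_subset
  have hdis : Disjoint S' Bad := Finset.sdiff_disjoint
  have hun : S' ∪ Bad = S := Finset.sdiff_union_of_subset hBS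
  obtain ⟨Y, hY, hYc⟩ := chain_total hr hν hδ ha hU12 hk S' (fun x hx => by
    have := SF_mem hF hU (hS'S hx)
    exact ⟨this.1.le, this.2⟩) (fun x hx y hy hxy => by
    rw [hS', Finset.mem_sdiff] at hy
    apply hy.2
    rw [hBad, Finset.mem_filter]
    exact ⟨hy.1, x, hS'S hx, hxy⟩)
  obtain ⟨Y', hY', hYT⟩ := H344.glue Λ S' Bad hdis Y (fun _ _ => 0) hY (fun v => by
    simp only [zero_mul, Finset.sum_const_zero]
    exact Finset.sum_nonneg fun x _ => by positivity)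
  have h0 : YT Λ Bad (fun _ _ => 0) = 0 := by unfold YT; simp
  rw [hun] at hY' hYT
  rw [h0, add_zero] at hYT
  have h1 := (trace_zeros hF hU Λ Y' hY').1
  rw [hYT, Ns_card hF hU, ← hS] at h1
  have h2 : (S.card : ℝ) = S'.card + Bad.card := by
    rw [← hun, Finset.card_union_of_disjoint hdis]; push_cast; ring
  have h3 : (Bad.card : ℝ) ≤ PC S a (a + 2 * r) := by
    have : Bad.card ≤ PC S a (a + 2 * r) := by
      unfold PC
      rw [Finset.card_eq_sum_ones]
      refine (Finset.sum_le_sum fun y hy => ?_).trans (Finset.sum_le_sum_of_subset hBS)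
      obtain ⟨x, hx, hxy⟩ := (Finset.mem_filter.mp hy).2
      exact Finset.card_pos.mpr ⟨x, Finset.mem_filter.mpr ⟨hx, hxy⟩⟩
    exact_mod_cast this
  linarith

/-- several windows -/
theorem many_windows {S : Finset ℝ} {D A r : ℝ} (hr : 0 < r)
    (h : ∀ a : ℝ, 0 ≤ a → a ≤ A → D ≤ PC S a (a + 2 * r)) (a : ℝ) (ha : 0 ≤ a) :
    ∀ k : ℕ, a + k * (2 * r) ≤ A → k * D ≤ PC S a (a + k * (2 * r)) := by
  intro k
  induction k with
  | zero =>
    intro _
    simp
  | succ k ih =>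
    intro hk
    push_cast at hk ⊢
    have hk0 : (0 : ℝ) ≤ k := Nat.cast_nonneg k
    have h1 := ih (by nlinarith)
    have h2 := h (a + k * (2 * r)) (by positivity) (by nlinarith)
    have h3 := PC_add S (a := a) (b := a + k * (2 * r)) (c := a + k * (2 * r) + 2 * r)
      (by nlinarith) (by linarith)
    have e : a + (k + 1) * (2 * r) = a + k * (2 * r) + 2 * r := by ring
    rw [e]
    have h4 : (PC S a (a + k * (2 * r)) : ℝ) + PC S (a + k * (2 * r)) (a + k * (2 * r) + 2 * r) ≤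
      PC S a (a + k * (2 * r) + 2 * r) := by exact_mod_cast h3
    linarith

/-- from windows to a linear lower bound -/
theorem linear_windows {S : Finset ℝ} {D A r : ℝ} (hr : 0 < r) (hD : 0 ≤ D)
    (h : ∀ a : ℝ, 0 ≤ a → a ≤ A → D ≤ PC S a (a + 2 * r)) (a b : ℝ) (ha : 0 ≤ a) (hb : b ≤ A)
    (hab : 2 * r ≤ b - a) : (b - a) / (2 * (2 * r)) * D ≤ PC S a b := by
  set k := ⌊(b - a) / (2 * r)⌋₊ with hk
  have h2r : 0 < 2 * r := by linarith
  have h1 : 1 ≤ (b - a) / (2 * r) := by rw [le_div_iff₀ h2r]; linarith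
  have hk1 : 1 ≤ k := by
    rw [hk]; exact Nat.le_floor (by exact_mod_cast h1)
  have hk1' : (1 : ℝ) ≤ k := by exact_mod_cast hk1
  have h2 : (k : ℝ) ≤ (b - a) / (2 * r) := Nat.floor_le (by linarith)
  have h3 : (b - a) / (2 * r) < k + 1 := Nat.lt_floor_add_one _
  rw [le_div_iff₀ h2r] at h2
  have h4 := many_windows hr h a ha k (by linarith)
  have h5 : (PC S a (a + k * (2 * r)) : ℝ) ≤ PC S a b := by
    exact_mod_cast PC_mono (Finset.Subset.refl S) le_rfl (by linarith)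
  refine le_trans ?_ (h4.trans h5)
  apply mul_le_mul_of_nonneg_right _ hD
  have e : (b - a) / (2 * (2 * r)) = (b - a) / (2 * r) / 2 := by
    rw [div_div, mul_comm 2 (2 * r)]
  rw [e]
  linarith

/-- parameters of a window: length `L`, in mean spacings, and the two slopes -/
structure Tier (L ν δ c : ℝ) : Prop where
  L0 : 0 < L
  ν0 : 0 ≤ ν
  δ0 : 0 ≤ δ
  c0 : 0 ≤ c
  cc : c < 2 - 1.327503 - ν - δ
  hk : ∀ {σ θ Λ : ℝ}, 0 < σ → σ ≤ 1 / 100 → 0 < θ → θ ≤ 1 → 1.399 ≤ 1.3995 * θ →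
    Λ * σ = 2 * Real.pi * θ → ∀ x y : ℝ, x < y → ∃ t : ℝ, |t| ≤ 1 / 2 ∧
      1 - (4 * t * (phi Λ ((x : ℂ) - y)).re - 2 * t ^ 2) ≤
        if y - x < 2 * (L * σ / 2) then (2 * (ν / σ) + δ / σ) * (y - x)
          else ν / σ * (2 * (L * σ / 2)) + δ / σ * (y - x)

theorem tier1 : Tier 1.3995 0.52111 0.1501 0.00128 := by
  refine ⟨by norm_num, by norm_num, by norm_num, by norm_num, by norm_num, ?_⟩
  intro σ θ Λ h1 h2 h3 h4 h5 h6 x y hxy
  obtain ⟨s1, s2⟩ := scale h1 h2 h3 h4 h6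
  have e : 2 * (1.3995 * σ / 2) = 1.3995 * σ := by ring
  rw [e]
  have hxy0 : 0 ≤ (y - x) / σ := div_nonneg (by linarith) h1.le
  split_ifs with hlt
  · obtain ⟨t, ht, ht2⟩ := s1 x y hxy (by
      have : 1.3995 * σ ≤ 1.83 * σ := mul_le_mul_of_nonneg_right (by norm_num) h1.le
      linarith)
    refine ⟨t, ht, ht2.trans ?_⟩
    have e1 : 1.1 / σ * (y - x) = 1.1 * ((y - x) / σ) := by ring
    have e2 : (2 * (0.52111 / σ) + 0.1501 / σ) * (y - x) = (2 * 0.52111 + 0.1501) * ((y - x) / σ) := by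
      ring
    rw [e1, e2]
    exact mul_le_mul_of_nonneg_right (by norm_num) hxy0
  · push Not at hlt
    obtain ⟨t, ht, ht2⟩ := s2 h5 x y hlt
    refine ⟨t, ht, ht2.trans ?_⟩
    have e1 : 0.52111 / σ * (1.3995 * σ) = 0.52111 * 1.3995 := by field_simp
    rw [e1]
    norm_num

theorem tier2 : Tier 1.82 0.55 0 0.122 := by
  refine ⟨by norm_num, by norm_num, by norm_num, by norm_num, by norm_num, ?_⟩
  intro σ θ Λ h1 h2 h3 h4 h5 h6 x y hxy
  obtain ⟨s1, s2⟩ := scale h1 h2 h3 h4 h6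
  have e : 2 * (1.82 * σ / 2) = 1.82 * σ := by ring
  rw [e]
  have hxy0 : 0 ≤ (y - x) / σ := div_nonneg (by linarith) h1.le
  split_ifs with hlt
  · obtain ⟨t, ht, ht2⟩ := s1 x y hxy (by
      have : 1.82 * σ ≤ 1.83 * σ := mul_le_mul_of_nonneg_right (by norm_num) h1.le
      linarith)
    refine ⟨t, ht, ht2.trans ?_⟩
    have e1 : 1.1 / σ * (y - x) = 1.1 * ((y - x) / σ) := by ring
    have e2 : (2 * (0.55 / σ) + 0 / σ) * (y - x) = (2 * 0.55) * ((y - x) / σ) := by
      ring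
    rw [e1, e2]
    exact mul_le_mul_of_nonneg_right (by norm_num) hxy0
  · refine ⟨0, by norm_num, ?_⟩
    have e1 : 0.55 / σ * (1.82 * σ) = 0.55 * 1.82 := by field_simp
    rw [e1]
    norm_num

end Pool.Agent.W201
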